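import Pool.Agent.Run7.h737.BA.Corr

/-!
# Badly approximable numbers with non-Poissonian `{n² α}` at every scale

Negative answer to Q1 in a strong form: the numbers are badly approximable (of the smallest
possible type `2`) and the `k`-level correlations, `k ≥ 23`, diverge through all integers `N`.
The definitions `x`, `corr`, `IsOfType`, `PoissonianAlong` are those of the starting file
`NoPoissonSubseq` of the problem MP_ba281e_nt; `corr d N α f` is `R_k(f, N)` with `k = d + 1`.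
-/

set_option autoImplicit false

namespace Pool.Agent.Results.MP_0a44cb_nt.BadlyApproximable

open Filter Topology Run7.h737.BA
open Pool.Agent.Results.MP_ba281e_nt.NoPoissonSubseq (x corr IsOfType PoissonianAlong bump
  bump_continuous bump_nonneg bump_compact)

/-- `α` is badly approximable: there is `C > 0` with `|α - a/q| ≥ C / q²` for all integers `a`
and `q ≥ 1`. -/
def BadlyApprox (α : ℝ) : Prop :=
  ∃ C : ℝ, 0 < C ∧ ∀ a q : ℤ, 1 ≤ q → C / (q : ℝ) ^ 2 ≤ |α - (a : ℝ) / (q : ℝ)|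

lemma BadlyApprox.irrational {α : ℝ} (h : BadlyApprox α) : Irrational α := by
  obtain ⟨C, hC, h⟩ := h
  rw [irrational_iff_ne_rational]
  intro a b hb hab
  rcases lt_or_gt_of_ne hb with hneg | hpos
  · have h1 := h (-a) (-b) (by omega)
    have hbR : (b : ℝ) ≠ 0 := by exact_mod_cast hb
    rw [hab] at h1
    push_cast at h1
    rw [neg_div_neg_eq, sub_self, abs_zero] at h1
    have : 0 < C / (-(b : ℝ)) ^ 2 := by
      have : 0 < (-(b : ℝ)) ^ 2 := by rw [neg_sq]; positivity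
      positivity
    linarith
  · have h1 := h a b (by omega)
    have hbR : (0 : ℝ) < b := by exact_mod_cast hpos
    rw [hab, sub_self, abs_zero] at h1
    have : 0 < C / (b : ℝ) ^ 2 := by positivity
    linarith

lemma BadlyApprox.type {α : ℝ} (h : BadlyApprox α) (κ : ℝ) (hκ : 2 ≤ κ) : IsOfType κ α := by
  obtain ⟨C, hC, h⟩ := h
  refine ⟨C, hC, fun a q hq _ => ?_⟩
  refine le_trans ?_ (h a q hq)
  have hqR : (1 : ℝ) ≤ q := by exact_mod_cast hq
  rw [div_eq_mul_inv]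
  apply mul_le_mul_of_nonneg_left _ hC.le
  rw [← Real.rpow_natCast, ← Real.rpow_neg (by linarith)]
  apply Real.rpow_le_rpow_of_exponent_le hqR
  push_cast
  linarith

lemma BadlyApprox.add_rat {α : ℝ} (h : BadlyApprox α) (b : ℤ) (t : ℕ) (ht : 1 ≤ t) :
    BadlyApprox (α + (b : ℝ) / t) := by
  obtain ⟨C, hC, h⟩ := h
  have htR : (1 : ℝ) ≤ t := by exact_mod_cast ht
  refine ⟨C / (t : ℝ) ^ 2, by positivity, fun a q hq => ?_⟩
  have hqR : (1 : ℝ) ≤ q := by exact_mod_cast hq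
  have h1 := h (a * t - b * q) (q * t) (by
    have : (1 : ℤ) ≤ t := by exact_mod_cast ht
    nlinarith)
  have h2 : α + (b : ℝ) / t - (a : ℝ) / q =
      α - ((a * t - b * q : ℤ) : ℝ) / ((q * t : ℤ) : ℝ) := by
    push_cast
    field_simp
    ring
  rw [h2]
  refine le_trans (le_of_eq ?_) h1
  push_cast
  field_simp

lemma diverges (α : ℝ) (h : Good α) (d : ℕ) (hd : 22 ≤ d) (f : (Fin d → ℝ) → ℝ)
    (hf : Continuous f) (hc : HasCompactSupport f) (hf0 : ∀ y, 0 ≤ f y) (h0 : 0 < f 0) :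
    Tendsto (fun N : ℕ => corr d N α f) atTop atTop := by
  obtain ⟨C, hC, hg⟩ := growth α h d f hf hc hf0 h0
  have hdR : (22 : ℝ) ≤ d := by exact_mod_cast hd
  refine tendsto_atTop_mono' atTop hg ?_
  exact ((tendsto_rpow_atTop (by linarith)).comp tendsto_natCast_atTop_atTop).const_mul_atTop hC

lemma vt {v : ℕ → ℕ} (hv2 : ∀ i, i ≤ v i) :
    Tendsto (fun j => (v j : ℝ) ^ ((1 : ℝ) / 3)) atTop atTop := by
  refine (tendsto_rpow_atTop (by norm_num)).comp ?_
  refine tendsto_atTop_mono (fun j => ?_) tendsto_natCast_atTop_atTop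
  exact_mod_cast hv2 j

lemma Ns_tendsto {v : ℕ → ℕ} (hv2 : ∀ i, i ≤ v i) : Tendsto (Ns v) atTop atTop := by
  have h1 : Tendsto (fun j => ((v j : ℝ) ^ ((1 : ℝ) / 3)) ^ 4) atTop atTop :=
    (tendsto_pow_atTop (by norm_num)).comp (vt hv2)
  exact (tendsto_nat_ceil_atTop (α := ℝ)).comp h1

lemma five (α : ℝ) (v : ℕ → ℕ) (B : ℝ) (hB : 1 ≤ B) (hv1 : ∀ i, 1 ≤ v i) (hv2 : ∀ i, i ≤ v i)
    (hv4 : ∀ i, ∃ p : ℤ, |(v i : ℝ) ^ 2 * α - p| ≤ B / (v i : ℝ) ^ 2)
    (d : ℕ) (hd : 4 ≤ d) (f : (Fin d → ℝ) → ℝ) (hf : Continuous f) (hc : HasCompactSupport f)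
    (hf0 : ∀ y, 0 ≤ f y) (h0 : 0 < f 0) :
    Tendsto (fun j => corr d (Ns v j) α f) atTop atTop := by
  obtain ⟨δ, hδ0, hδ1, hδ⟩ := box d f hf h0
  set D : ℝ := (d : ℝ) + 1 with hD
  have hD1 : 1 ≤ D := by
    rw [hD]
    have : (0 : ℝ) ≤ d := by positivity
    linarith
  set κ : ℝ := δ / (2 * B * D) with hκ
  have hκ0 : 0 < κ := by positivity
  have hDκ : D * κ = δ / (2 * B) := by
    rw [hκ]
    field_simp
  have hs := sparse α v B hB hv1 hv2 hv4 d f hc hf0 δ (f 0 / 2) κ hδ1 (by positivity) hδ hκ0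
    (by
      show D * κ ≤ 1
      rw [hDκ, div_le_one (by positivity)]
      linarith)
    (by
      show (D * κ) ^ 2 * (2 * B) ≤ δ
      rw [hDκ]
      have h1 : (δ / (2 * B)) ^ 2 * (2 * B) = δ * (δ / (2 * B)) := by field_simp
      rw [h1]
      have h2 : δ / (2 * B) ≤ 1 := by
        rw [div_le_one (by positivity)]
        linarith
      nlinarith)
  refine tendsto_atTop_mono' atTop hs ?_
  refine Tendsto.const_mul_atTop (by positivity) ?_
  have h1 : Tendsto (fun j => ((v j : ℝ) ^ ((1 : ℝ) / 3)) ^ (d - 3)) atTop atTop :=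
    (tendsto_pow_atTop (by omega)).comp (vt hv2)
  refine h1.congr' ?_
  filter_upwards [(vt hv2).eventually_gt_atTop 0] with j hj
  rw [eq_div_iff (by positivity), ← pow_add]
  congr 1
  omega

lemma bump_int : 0 < ∫ y, bump 3 y := by
  refine (bump_continuous 3).integral_pos_of_hasCompactSupport_nonneg_nonzero (bump_compact 3)
    (fun y => bump_nonneg 3 y) (x := 0) ?_
  unfold bump
  simp

lemma four (α : ℝ) (v : ℕ → ℕ) (B : ℝ) (hB : 1 ≤ B) (hv1 : ∀ i, 1 ≤ v i) (hv2 : ∀ i, i ≤ v i)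
    (hv4 : ∀ i, ∃ p : ℤ, |(v i : ℝ) ^ 2 * α - p| ≤ B / (v i : ℝ) ^ 2) (K : ℝ) :
    ∃ f : (Fin 3 → ℝ) → ℝ, Continuous f ∧ HasCompactSupport f ∧ (∀ y, 0 ≤ f y) ∧
      0 < ∫ y, f y ∧ ∀ᶠ j : ℕ in atTop, K * ∫ y, f y ≤ corr 3 (Ns v j) α f := by
  set I : ℝ := ∫ y, bump 3 y with hI
  have hI0 : 0 < I := bump_int
  set A : ℝ := 1 / (2 * (16 * B) ^ 4) with hA
  have hA0 : 0 < A := by positivity
  set ε : ℝ := min 1 (A / ((|K| + 1) * I)) with hε
  have hε0 : 0 < ε := by positivity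
  have hε1 : ε ≤ 1 := min_le_left _ _
  have hε2 : ε * ((|K| + 1) * I) ≤ A := by
    have h1 : ε ≤ A / ((|K| + 1) * I) := min_le_right _ _
    rwa [le_div_iff₀ (by positivity)] at h1
  set δ : ℝ := ε ^ 2 with hδ
  have hδ0 : 0 < δ := by positivity
  have hδ1 : δ ≤ 1 := pow_le_one₀ hε0.le hε1
  set f : (Fin 3 → ℝ) → ℝ := fun y => bump 3 (δ⁻¹ • y) with hf
  have hfc : Continuous f := (bump_continuous 3).comp (continuous_const_smul _)
  have hfs : HasCompactSupport f :=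
    (bump_compact 3).comp_homeomorph (Homeomorph.smulOfNeZero δ⁻¹ (inv_ne_zero hδ0.ne'))
  have hint : ∫ y, f y = δ ^ 3 * I := by
    have h1 := MeasureTheory.Measure.integral_comp_smul
      (MeasureTheory.volume : MeasureTheory.Measure (Fin 3 → ℝ)) (bump 3) δ⁻¹
    rw [hf, h1, hI]
    simp only [Module.finrank_fintype_fun_eq_card, Fintype.card_fin, smul_eq_mul, inv_pow, inv_inv]
    rw [abs_of_pos (by positivity)]
  have hbox : ∀ y : Fin 3 → ℝ, (∀ i, |y i| ≤ δ) → 1 ≤ f y := by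
    intro y hy
    have h1 : ‖y‖ ≤ δ := (pi_norm_le_iff_of_nonneg hδ0.le).mpr (fun i => by simpa using hy i)
    have h2 : ‖δ⁻¹ • y‖ ≤ 1 := by
      rw [norm_smul, norm_inv, Real.norm_eq_abs, abs_of_pos hδ0]
      rw [inv_mul_le_iff₀ hδ0]
      linarith
    show 1 ≤ max 0 (2 - ‖δ⁻¹ • y‖)
    exact le_trans (by linarith) (le_max_right _ _)
  set κ : ℝ := ε / (8 * B) with hκ
  have hκ0 : 0 < κ := by positivity
  have hκ4 : (((3 : ℕ) : ℝ) + 1) * κ = ε / (2 * B) := by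
    rw [hκ]
    push_cast
    field_simp
    norm_num
  have hs := sparse α v B hB hv1 hv2 hv4 3 f hfs (fun y => bump_nonneg 3 _) δ 1 κ hδ1
    zero_le_one hbox hκ0
    (by
      rw [hκ4, div_le_one (by positivity)]
      linarith)
    (by
      rw [hκ4]
      have h1 : (ε / (2 * B)) ^ 2 * (2 * B) = ε ^ 2 / (2 * B) := by field_simp
      rw [h1, div_le_iff₀ (by positivity)]
      nlinarith)
  refine ⟨f, hfc, hfs, fun y => bump_nonneg 3 _, by rw [hint]; positivity, ?_⟩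
  filter_upwards [hs, (vt hv2).eventually_gt_atTop 0] with j hj hj0
  refine le_trans ?_ hj
  rw [show (3 + 1 : ℕ) = 4 by norm_num, div_self (by positivity), mul_one, one_mul, hint]
  have h2 : (κ / 2) ^ 4 / 2 = ε ^ 4 * A := by
    rw [hκ, hA]
    field_simp
    norm_num
  rw [h2]
  have h3 : K ≤ |K| + 1 := by linarith [le_abs_self K]
  have h4 : K * (δ ^ 3 * I) ≤ (|K| + 1) * (δ ^ 3 * I) :=
    mul_le_mul_of_nonneg_right h3 (by positivity)
  have h5 : (|K| + 1) * (δ ^ 3 * I) = ε ^ 5 * (ε * ((|K| + 1) * I)) := by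
    rw [hδ]; ring
  have h6 : ε ^ 5 * (ε * ((|K| + 1) * I)) ≤ ε ^ 4 * A := by
    have h7 : ε ^ 5 ≤ ε ^ 4 := pow_le_pow_of_le_one hε0.le hε1 (by norm_num)
    exact mul_le_mul h7 hε2 (by positivity) (by positivity)
  linarith

/-- **Theorem.** Every interval contains a badly approximable `α` such that
(1) `R_k(f, N) → ∞` as `N → ∞` through all integers, for every `k = d + 1 ≥ 23` and every
non-negative `f ∈ C_c(ℝ^(k-1))` with `f(0) > 0`; in particular `{n² α}` is not Poissonian along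
any sequence `N_j → ∞`;
(2) along one fixed sequence `N_j → ∞` the same divergence holds for every `k ≥ 5`, and the
four-level correlation exceeds every multiple of the Poisson value.
In particular the answer to Q1 is negative. -/
theorem result :
    (∀ s t : ℝ, s < t → ∃ α : ℝ, s < α ∧ α < t ∧ Irrational α ∧ BadlyApprox α ∧
      (∀ (d : ℕ) (f : (Fin d → ℝ) → ℝ), 22 ≤ d → Continuous f → HasCompactSupport f →
        (∀ y, 0 ≤ f y) → 0 < f 0 → Tendsto (fun N : ℕ => corr d N α f) atTop atTop) ∧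
      (∀ N : ℕ → ℕ, Tendsto N atTop atTop → ¬ PoissonianAlong α N) ∧
      ∃ N : ℕ → ℕ, Tendsto N atTop atTop ∧
        (∀ (d : ℕ) (f : (Fin d → ℝ) → ℝ), 4 ≤ d → Continuous f → HasCompactSupport f →
          (∀ y, 0 ≤ f y) → 0 < f 0 → Tendsto (fun j => corr d (N j) α f) atTop atTop) ∧
        ∀ K : ℝ, ∃ f : (Fin 3 → ℝ) → ℝ, Continuous f ∧ HasCompactSupport f ∧
          (∀ y, 0 ≤ f y) ∧ 0 < ∫ y, f y ∧
          ∀ᶠ j in atTop, K * ∫ y, f y ≤ corr 3 (N j) α f) ∧
    ¬ ∀ α : ℝ, Irrational α → (∃ κ : ℝ, κ < 3 ∧ IsOfType κ α) → PoissonianAlong α id := by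
  have main : ∀ s t : ℝ, s < t → ∃ α : ℝ, s < α ∧ α < t ∧ Irrational α ∧ BadlyApprox α ∧
      (∀ (d : ℕ) (f : (Fin d → ℝ) → ℝ), 22 ≤ d → Continuous f → HasCompactSupport f →
        (∀ y, 0 ≤ f y) → 0 < f 0 → Tendsto (fun N : ℕ => corr d N α f) atTop atTop) ∧
      (∀ N : ℕ → ℕ, Tendsto N atTop atTop → ¬ PoissonianAlong α N) ∧
      ∃ N : ℕ → ℕ, Tendsto N atTop atTop ∧
        (∀ (d : ℕ) (f : (Fin d → ℝ) → ℝ), 4 ≤ d → Continuous f → HasCompactSupport f →
          (∀ y, 0 ≤ f y) → 0 < f 0 → Tendsto (fun j => corr d (N j) α f) atTop atTop) ∧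
        ∀ K : ℝ, ∃ f : (Fin 3 → ℝ) → ℝ, Continuous f ∧ HasCompactSupport f ∧
          (∀ y, 0 ≤ f y) ∧ 0 < ∫ y, f y ∧
          ∀ᶠ j in atTop, K * ∫ y, f y ≤ corr 3 (N j) α f := by
    intro s t hst
    have hbad : BadlyApprox al := ⟨1 / 8, by norm_num, fun a q hq => al_bad a q hq⟩
    obtain ⟨r, hr1, hr2⟩ := exists_rat_btwn (show s - al < t - al by linarith)
    have hr : (r : ℝ) = (r.num : ℝ) / (r.den : ℕ) := by exact_mod_cast (Rat.num_div_den r).symm
    have hgood : Good (al + (r : ℝ)) := by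
      rw [hr]; exact al_good.add_rat r.num r.den r.pos
    have hbad' : BadlyApprox (al + (r : ℝ)) := by
      rw [hr]; exact hbad.add_rat r.num r.den r.pos
    refine ⟨al + r, by linarith, by linarith, hbad'.irrational, hbad', ?_, ?_, ?_⟩
    · exact fun d f hd h1 h2 h3 h4 => diverges _ hgood d hd f h1 h2 h3 h4
    · intro N hN hP
      have h0 : 0 < bump 22 0 := by unfold bump; simp
      have h1 := hP 22 (by norm_num) (bump 22) (bump_continuous _) (bump_compact _)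
      exact not_tendsto_nhds_of_tendsto_atTop
        ((diverges _ hgood 22 le_rfl _ (bump_continuous 22) (bump_compact 22) (bump_nonneg 22)
          h0).comp hN) _ h1
    · obtain ⟨v, B, hB, hv1, hv2, _, hv4⟩ := hgood
      refine ⟨Ns v, Ns_tendsto hv2, ?_, ?_⟩
      · exact fun d f hd h1 h2 h3 h4 => five _ v B hB hv1 hv2 hv4 d hd f h1 h2 h3 h4
      · exact four _ v B hB hv1 hv2 hv4
  refine ⟨main, ?_⟩
  intro hQ
  obtain ⟨α, _, _, h1, h2, _, h3, _⟩ := main 0 1 zero_lt_one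
  exact h3 id tendsto_id (hQ α h1 ⟨2, by norm_num, h2.type 2 le_rfl⟩)

end Pool.Agent.Results.MP_0a44cb_nt.BadlyApproximable
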